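import Mathlib

namespace Pool.Agent.Results.MP_81a4f1_co.NoPath

noncomputable def loc {V : Type} (G : SimpleGraph V) (v : V) : ℕ :=
  (G.induce (G.neighborSet v)).indepNum

noncomputable def lmax {V : Type} [Fintype V] (G : SimpleGraph V) : ℕ :=
  Finset.univ.sup (loc G)

noncomputable def freq {V : Type} [Fintype V] (G : SimpleGraph V) : ℕ :=
  (Finset.univ.filter fun v => loc G v = lmax G).card

def adj (u v : Fin 11) : Bool :=
  if u = v then false
  else if u = 1 ∨ u = 2 then v = 0
  else if v = 1 ∨ v = 2 then u = 0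
  else !((u = 0 ∨ u = 3 ∨ u = 4) ∧ (v = 0 ∨ v = 3 ∨ v = 4))

def H : SimpleGraph (Fin 11) where
  Adj u v := adj u v = true
  symm := ⟨by decide⟩
  loopless := ⟨by decide⟩

instance : DecidableRel H.Adj := fun u v => inferInstanceAs (Decidable (adj u v = true))

def ok (v a b : Fin 11) : Bool := adj v b && !(decide (a = b)) && !(adj a b)

lemma four' : ∀ v a b : Fin 11, (adj v a && ok v a b) = true → ∀ c : Fin 11,
    (ok v a c && ok v b c) = true → ∀ d : Fin 11, (ok v a d && ok v b d && ok v c d) = false := by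
  decide +kernel

lemma four (v a b c d : Fin 11) (h1 : adj v a = true) (h2 : adj v b = true) (h3 : adj v c = true)
    (h4 : adj v d = true) : a = b ∨ a = c ∨ a = d ∨ b = c ∨ b = d ∨ c = d ∨ adj a b = true ∨
      adj a c = true ∨ adj a d = true ∨ adj b c = true ∨ adj b d = true ∨ adj c d = true := by
  by_contra h
  simp only [not_or, Bool.not_eq_true] at h
  obtain ⟨e1, e2, e3, e4, e5, e6, f1, f2, f3, f4, f5, f6⟩ := h
  have := four' v a b (by simp [ok, *]) c (by simp [ok, *]) d
  simp [ok, *] at this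

lemma loc_le (v : Fin 11) : loc H v ≤ 3 := by
  classical
  obtain ⟨s, hs⟩ := (H.induce (H.neighborSet v)).exists_isNIndepSet_indepNum
  unfold loc
  rw [← hs.card_eq]
  by_contra hlt
  obtain ⟨a, ha, b, hb, c, hc, d, hd, h1, h2, h3, h4, h5, h6⟩ :=
    Finset.three_lt_card.mp (not_le.mp hlt)
  have hi := hs.isIndepSet
  rcases four v a b c d a.2 b.2 c.2 d.2 with h | h | h | h | h | h | h | h | h | h | h | h
  · exact h1 (Subtype.ext h)
  · exact h2 (Subtype.ext h)
  · exact h3 (Subtype.ext h)
  · exact h4 (Subtype.ext h)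
  · exact h5 (Subtype.ext h)
  · exact h6 (Subtype.ext h)
  · exact hi ha hb h1 h
  · exact hi ha hc h2 h
  · exact hi ha hd h3 h
  · exact hi hb hc h4 h
  · exact hi hb hd h5 h
  · exact hi hc hd h6 h

lemma le_loc (v a b c : Fin 11) (ha : H.Adj v a) (hb : H.Adj v b) (hc : H.Adj v c)
    (h1 : a ≠ b) (h2 : a ≠ c) (h3 : b ≠ c) (n1 : ¬ H.Adj a b) (n2 : ¬ H.Adj a c)
    (n3 : ¬ H.Adj b c) : loc H v = 3 := by
  classical
  refine le_antisymm (loc_le v) ?_
  have hi : (H.induce (H.neighborSet v)).IsIndepSet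
      (({⟨a, ha⟩, ⟨b, hb⟩, ⟨c, hc⟩} : Finset (H.neighborSet v)) : Set (H.neighborSet v)) := by
    intro x hx y hy hxy h
    simp only [Finset.coe_insert, Finset.coe_singleton, Set.mem_insert_iff,
      Set.mem_singleton_iff] at hx hy
    rcases hx with rfl | rfl | rfl <;> rcases hy with rfl | rfl | rfl <;>
      first
        | exact hxy rfl
        | exact n1 h
        | exact n2 h
        | exact n3 h
        | exact n1 (H.adj_symm h)
        | exact n2 (H.adj_symm h)
        | exact n3 (H.adj_symm h)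
  have := hi.card_le_indepNum
  rwa [Finset.card_eq_three.mpr ⟨_, _, _, fun h => h1 (congrArg Subtype.val h),
    fun h => h2 (congrArg Subtype.val h), fun h => h3 (congrArg Subtype.val h), rfl⟩] at this

lemma loc3 (v : Fin 11) (hv : v ∈ ({0, 5, 6, 7, 8, 9, 10} : Finset (Fin 11))) : loc H v = 3 := by
  by_cases h : v = 0
  · subst h
    apply le_loc 0 1 2 5 <;> decide
  · apply le_loc v 0 3 4 <;> revert v <;> decide

lemma lmax_eq : lmax H = 3 := by
  apply le_antisymm
  · exact Finset.sup_le fun v _ => loc_le v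
  · rw [← loc3 0 (by decide)]
    exact Finset.le_sup (f := loc H) (Finset.mem_univ 0)

lemma freq_ge : 7 ≤ freq H := by
  have : ({0, 5, 6, 7, 8, 9, 10} : Finset (Fin 11)) ⊆
      Finset.univ.filter fun v => loc H v = lmax H := by
    intro v hv
    rw [Finset.mem_filter, lmax_eq]
    exact ⟨Finset.mem_univ _, loc3 v hv⟩
  exact Finset.card_le_card this

lemma edges : Hᶜ.edgeSet.ncard = 20 := by
  rw [← SimpleGraph.coe_edgeFinset, Set.ncard_coe_finset]
  have := Hᶜ.sum_degrees_eq_twice_card_edges
  have h2 : ∑ v, Hᶜ.degree v = 40 := by decide +kernel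
  omega

lemma conn : H.Connected := by
  have h5 : ∀ v : Fin 11, H.Reachable 5 v := by
    intro v
    by_cases h : v = 5
    · rw [h]
    · by_cases h1 : v = 1 ∨ v = 2
      · have a : H.Adj 5 0 := by decide
        have b : H.Adj 0 v := by rcases h1 with rfl | rfl <;> decide
        exact a.reachable.trans b.reachable
      · have a : H.Adj 5 v := by revert v; decide
        exact a.reachable
  exact { preconnected := fun u v => (h5 u).symm.trans (h5 v), nonempty := ⟨0⟩ }

lemma noham (u v : Fin 11) (p : H.Walk u v) : ¬ p.IsHamiltonian := by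
  intro hp
  have hl : p.length = 10 := by simpa using hp.length_eq
  have inj := hp.isPath.getVert_injOn
  have pend : ∀ x y : Fin 11, (x = 1 ∨ x = 2) → (H.Adj x y ∨ H.Adj y x) → y = 0 := by decide
  have key : ∀ x : Fin 11, (x = 1 ∨ x = 2) →
      (p.getVert 0 = x ∧ p.getVert 1 = 0) ∨ (p.getVert 10 = x ∧ p.getVert 9 = 0) := by
    intro x hx
    obtain ⟨i, hi, hil⟩ := SimpleGraph.Walk.mem_support_iff_exists_getVert.mp (hp.mem_support x)
    have nxt : i < 10 → p.getVert (i + 1) = 0 := fun h =>
      pend x _ hx (Or.inl (hi ▸ p.adj_getVert_succ (by omega)))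
    have prv : 0 < i → p.getVert (i - 1) = 0 := fun h => by
      apply pend x _ hx (Or.inr ?_)
      have := p.adj_getVert_succ (i := i - 1) (by omega)
      rwa [Nat.sub_add_cancel h, hi] at this
    by_cases h0 : i = 0
    · subst h0
      exact Or.inl ⟨hi, nxt (by omega)⟩
    · by_cases h10 : i = 10
      · subst h10
        exact Or.inr ⟨hi, prv (by omega)⟩
      · have := inj (show i + 1 ≤ p.length by omega) (show i - 1 ≤ p.length by omega)
          ((nxt (by omega)).trans (prv (by omega)).symm)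
        omega
  have h19 : p.getVert 1 = 0 → p.getVert 9 = 0 → False := fun a b => by
    have := inj (show 1 ≤ p.length by omega) (show 9 ≤ p.length by omega) (a.trans b.symm)
    omega
  rcases key 1 (Or.inl rfl) with ⟨a, b⟩ | ⟨a, b⟩ <;>
    rcases key 2 (Or.inr rfl) with ⟨c, d⟩ | ⟨c, d⟩
  · exact absurd (a.symm.trans c) (by decide)
  · exact h19 b d
  · exact h19 d b
  · exact absurd (a.symm.trans c) (by decide)

theorem result : ¬ ∀ (n : ℕ) (G : SimpleGraph (Fin n)), 1 < n → G.Connected →
    (1 / 6 : ℝ) * (1 + 2 * (Gᶜ.edgeSet.ncard : ℝ)) ≤ freq G →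
      ∃ (u v : Fin n) (p : G.Walk u v), p.IsHamiltonian := by
  intro h
  obtain ⟨u, v, p, hp⟩ := h 11 H (by norm_num) conn (by
    rw [edges]
    have : (7 : ℝ) ≤ freq H := by exact_mod_cast freq_ge
    norm_num
    linarith)
  exact noham u v p hp

end Pool.Agent.Results.MP_81a4f1_co.NoPath
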